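import Pool.Agent.Work.MP_b29d7f_nt.FF.Final
import Pool.Agent.Work.MP_b29d7f_nt.FF.One
import Pool.Agent.Work.MP_b29d7f_nt.FF.Ball
import Pool.Agent.Work.MP_b29d7f_nt.FF.Lower
import Pool.Agent.Work.MP_b29d7f_nt.FF.Upper
import Pool.Agent.Work.MP_b29d7f_nt.FF.Boxprod
import Pool.Agent.Work.MP_b29d7f_nt.FF.Pigeon
import Pool.Agent.Work.MP_b29d7f_nt.FF.Cells
import Pool.Agent.Work.MP_b29d7f_nt.FF.Count
import Pool.Agent.Work.MP_b29d7f_nt.FF.Tight
import Pool.Agent.Work.MP_b29d7f_nt.FF.Tree
import Pool.Agent.Work.MP_b29d7f_nt.FF.Chi
import Pool.Agent.Work.MP_b29d7f_nt_helper2.Rigid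
import Pool.Agent.Work.MP_b29d7f_nt.FF.Chain
import Pool.Agent.Work.MP_b29d7f_nt.FF.Conv2
import Pool.Agent.Work.MP_b29d7f_nt.FF.Insep
import Pool.Agent.Work.MP_b29d7f_nt_helper80.Mer
import Pool.Agent.Work.MP_b29d7f_nt_helper2.PF

/-!
# Simultaneous `𝔭`-orderings in the rings of integers of function fields

`val p x` is the exponent of the prime ideal `p` in the factorisation of `xR`.
`IsPOrdering S p a`: all terms of `a` lie in `S` and each `a k` minimises over `S` the `p`-adic
valuation of `∏_{i<k} (s - a i)`.  `HasSimultaneousOrdering S`: one sequence is a `p`-ordering of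
`S` for every nonzero prime ideal `p`.

`IsAwayPoly R`: `R` is isomorphic to `k[X][1/g]` for a finite field `k` and a nonzero polynomial
`g`.  `DenseInCoset S b I`: `S` is contained in `b + I` and `p`-adically dense in it for every
nonzero prime ideal `p`.  `ContainsPolyCoset S I`: for some `k`, `g` and some homomorphism
`f : k[X] → R` inducing an isomorphism of `k[X][1/g]` and `R`, and for some `b`, `c` with `I = cR`,
the set `b + c f(k[X])` is contained in `S`.

`Classified R`: the ring `R` has a simultaneous ordering if and only if `IsAwayPoly R`; and for a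
nonzero ideal `I`, a set `S` with `DenseInCoset S b I` has one if and only if
`ContainsPolyCoset S I`.

The second and third parts are about rings with only one place at infinity: `Classification R` says
that `R` has a simultaneous ordering if and only if `R = k[X]` for a finite field `k`, and that a
set `S` with `DenseInCoset S b I` has one if and only if `R = k[X]` and `S = b + I`.
-/

open Pool.Agent.Work.MP_b29d7f_nt.Ded Pool.Agent.Work.MP_b29d7f_nt.FF Polynomial FunctionField

namespace Pool.Agent.Results.MP_b29d7f_nt.AllFunctionFields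

universe u v

/-- The classification holds for the ring of integers of every finite extension `K` of `Fq(t)`,
`Fq` a finite field, and takes a stronger form when there is only one place at infinity. -/
theorem result :
    (∀ (Fq : Type v) (K : Type u) [Field Fq] [Finite Fq] [Field K] [Algebra Fq[X] K]
      [Algebra (RatFunc Fq) K] [IsScalarTower Fq[X] (RatFunc Fq) K] [FunctionField Fq K],
      Classified (ringOfIntegers Fq K)) ∧
    (∀ (Fq : Type v) (K : Type u) [Field Fq] [Finite Fq] [Field K] [Algebra Fq[X] K]
      [Algebra (RatFunc Fq) K] [IsScalarTower Fq[X] (RatFunc Fq) K] [FunctionField Fq K]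
      [Algebra.IsSeparable (RatFunc Fq) K],
      OnePlaceAtInfinity Fq K → Classification (ringOfIntegers Fq K)) ∧
    (∀ (R : Type u) [CommRing R] [IsDedekindDomain R] [Ring.HasFiniteQuotients R],
      ¬ IsField R → UltraNorm R → Classification R) := by
  refine ⟨fun Fq K _ _ _ _ _ _ _ => ?_, fun Fq K _ _ _ _ _ _ _ _ h => ?_,
    fun R _ _ _ hnf hU => classification hU hnf⟩
  · have hFact : Stmt_Fact.{u} := stmt_Fact
    have hPot : Stmt_Pot.{u} := stmt_Pot
    have hMer : Stmt_Mer.{u} := stmt_Mer
    have hTight := stmt_Tight hPot hMer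
    have hCells := stmt_Cells hPot hMer
    have hLower := stmt_Lower hTight hCells hPot
    have hBox := stmt_BoxProd hFact
    have hChi : Stmt_Chi.{u} := stmt_Chi hLower hBox stmt_Pigeon hMer
    have hUpper := stmt_Upper hChi hLower hBox
    have hBall := stmt_Ball hTight hCells hPot
    have hOne := stmt_One hChi hUpper hBall
    have hRigid : Stmt_Rigid.{u} := stmt_Rigid hBall hUpper hChi hPot hMer
    exact final hOne (stmt_Chain hRigid) stmt_Loc3 stmt_Conv2 stmt_FFPack stmt_Insep Fq K
  · have hq := hasFiniteQuotients_ringOfIntegers Fq K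
    exact classification (ultraNorm_of_onePlace Fq K h) (ringOfIntegers.not_isField Fq K)

end Pool.Agent.Results.MP_b29d7f_nt.AllFunctionFields
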