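import Pool.Agent.Work.MP_b29d7f_cvx.Final

/-!
# Convex sets of integers with a simultaneous `p`-ordering

`IsPOrdering S p a`: all terms of `a` lie in `S` and each `a k` minimises over `S` the `p`-adic
valuation of `∏_{i<k} (s - a i)`.  `HasSimultaneousOrdering S`: one sequence is a `p`-ordering of
`S` for every prime `p`.
-/

open Pool.Agent.Work.MP_b29d7f_nt (HasSimultaneousOrdering)

namespace Pool.Agent.Results.MP_b29d7f_nt.ConvexSets

/-- Let `s 0 < s 1 < ...` be integers with nondecreasing gaps and of polynomial growth.  The set of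
the `s n` has a simultaneous `p`-ordering if and only if `s n = a n + b` for all `n`, or
`s n = a n ^ 2 + b` for all `n`, or `s n = a n (n + 1) / 2 + b` for all `n`, for some integers
`a`, `b`. -/
theorem result : ∀ s : ℕ → ℤ, StrictMono s →
    (∀ k, s (k + 1) - s k ≤ s (k + 2) - s (k + 1)) →
    (∃ C : ℕ, ∀ n : ℕ, s n ≤ C * ((n : ℤ) + 1) ^ C) →
    (HasSimultaneousOrdering (Set.range s) ↔ ∃ a b : ℤ, (∀ n : ℕ, s n = a * n + b) ∨
      (∀ n : ℕ, s n = a * n ^ 2 + b) ∨ ∀ n : ℕ, s n = a * (n * (n + 1) / 2) + b) :=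
  Pool.Agent.Work.MP_b29d7f_cvx.convex_iff

end Pool.Agent.Results.MP_b29d7f_nt.ConvexSets
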