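import Pool.Agent.Work.MP_b29d7f_two.Final
import Pool.Agent.Work.MP_b29d7f_two.Powers
import Pool.Agent.Work.MP_b29d7f_two.Sharp2

/-!
# Sets of integers with a simultaneous `p`-ordering whose exponent is neither zero nor one half

`IsPOrdering S p a`: all terms of `a` lie in `S` and each `a k` minimises over `S` the `p`-adic
valuation of `∏_{i<k} (s - a i)`.  `HasSimultaneousOrdering S`: one sequence is a `p`-ordering of
`S` for every prime `p`.

`HalfDense S`: for some `ε > 0` and all large `L` some interval of length `L` contains at least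
`L ^ (1/2 + ε)` elements of `S`.

`LowExponent S`: for some `c, ε > 0` and all large `x`,
`x ^ c ≤ |S ∩ [-x, x]| ≤ x ^ (1/2 - ε)`.

`HasExponent S γ`: `|S ∩ [-x, x]| = x ^ (γ + o(1))`.
-/

open Pool.Agent.Work.MP_b29d7f_nt (HasSimultaneousOrdering)
open Pool.Agent.Work.MP_b29d7f_half (HalfDense)
open Pool.Agent.Work.MP_b29d7f_two (LowExponent HasExponent)

namespace Pool.Agent.Results.MP_b29d7f_nt.Exponent

/-- If `S` is half dense or of low exponent (in particular, if it has an exponent `γ > 0`,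
`γ ≠ 1/2`), then `S` admits a simultaneous `p`-ordering if and only if it lies between a one-sided
arithmetic progression `a ℕ + b` and the full progression `a ℤ + b`; a set of low exponent never
admits one.  The exponents `1/2` and `0` have to be excluded: the set of squares has
`x ^ (1/2) + O(1)` elements in `[-x, x]`, the set of the powers of two has the exponent `0`; both
have a simultaneous `p`-ordering and contain no one-sided progression. -/
theorem result :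
    (∀ S : Set ℤ, HalfDense S ∨ LowExponent S →
      (HasSimultaneousOrdering S ↔
        ∃ a b : ℤ, a ≠ 0 ∧ (∀ n : ℕ, a * n + b ∈ S) ∧ ∀ s ∈ S, a ∣ s - b)) ∧
    (∀ S : Set ℤ, LowExponent S → ¬ HasSimultaneousOrdering S) ∧
    (∀ (S : Set ℤ) (γ : ℝ), 0 < γ → γ ≠ 1 / 2 → HasExponent S γ →
      (HasSimultaneousOrdering S ↔
        ∃ a b : ℤ, a ≠ 0 ∧ (∀ n : ℕ, a * n + b ∈ S) ∧ ∀ s ∈ S, a ∣ s - b)) ∧
    (HasSimultaneousOrdering {x : ℤ | ∃ n : ℤ, x = n ^ 2} ∧
      (∀ x : ℕ, (x : ℝ) ^ (1 / 2 : ℝ) ≤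
          (({y : ℤ | ∃ n : ℤ, y = n ^ 2} ∩ Set.Icc (-(x : ℤ)) x).ncard : ℝ) ∧
        (({y : ℤ | ∃ n : ℤ, y = n ^ 2} ∩ Set.Icc (-(x : ℤ)) x).ncard : ℝ) ≤
          (x : ℝ) ^ (1 / 2 : ℝ) + 1) ∧
      ¬ ∃ a b : ℤ, a ≠ 0 ∧ ∀ n : ℕ, a * n + b ∈ {x : ℤ | ∃ n : ℤ, x = n ^ 2}) ∧
    (HasSimultaneousOrdering {x : ℤ | ∃ n : ℕ, x = 2 ^ n} ∧
      HasExponent {x : ℤ | ∃ n : ℕ, x = 2 ^ n} 0 ∧
      ¬ ∃ a b : ℤ, a ≠ 0 ∧ ∀ n : ℕ, a * n + b ∈ {x : ℤ | ∃ n : ℕ, x = 2 ^ n}) := by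
  have hlow : ∀ S : Set ℤ, LowExponent S → ¬ HasSimultaneousOrdering S :=
    Pool.Agent.Work.MP_b29d7f_two.P_MAIN
  have hall : ∀ S : Set ℤ, HalfDense S ∨ LowExponent S →
      (HasSimultaneousOrdering S ↔
        ∃ a b : ℤ, a ≠ 0 ∧ (∀ n : ℕ, a * n + b ∈ S) ∧ ∀ s ∈ S, a ∣ s - b) := by
    rintro S (hS | hS)
    · exact Pool.Agent.Work.MP_b29d7f_half.half_iff hS
    · constructor
      · intro h
        exact absurd h (hlow S hS)
      · rintro ⟨a, b, ha, h1, -⟩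
        exact absurd ⟨a, b, ha, h1⟩ (Pool.Agent.Work.MP_b29d7f_two.low_no_prog hS)
  refine ⟨hall, hlow, fun S γ h0 h1 h2 => hall S ?_, ?_, ?_⟩
  · rcases lt_or_gt_of_ne h1 with h | h
    · exact Or.inr (Pool.Agent.Work.MP_b29d7f_two.low_of_exponent h2 h0 h)
    · exact Or.inl (Pool.Agent.Work.MP_b29d7f_two.half_of_exponent h2 h)
  · exact ⟨Pool.Agent.Work.MP_b29d7f_half.squares_sharp.1,
      Pool.Agent.Work.MP_b29d7f_two.squares_count,
      Pool.Agent.Work.MP_b29d7f_half.squares_sharp.2.2⟩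
  · exact ⟨Pool.Agent.Work.MP_b29d7f_two.powers_ordering,
      Pool.Agent.Work.MP_b29d7f_two.powers_exponent,
      Pool.Agent.Work.MP_b29d7f_two.powers_no_ap⟩

end Pool.Agent.Results.MP_b29d7f_nt.Exponent
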