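import Pool.Agent.Work.MP_b29d7f_ns_helper12.ALL

/-!
# Simultaneous `𝔭`-orderings in number fields

`𝓞 K` is the ring of integers of the number field `K`, `HeightOneSpectrum (𝓞 K)` the set of its
nonzero prime ideals and `v.valuation K` the `v`-adic valuation of `K`, written multiplicatively
(`WithZero.exp (-n)` is the value of an element of order `n`); `T.integer K` is the ring of the
elements of `K` which are integral at all primes outside `T`.

`val p x` is the exponent of the prime ideal `p` in the factorisation of `xR`.
`IsPOrdering S p a`: all terms of `a` lie in `S` and each `a k` minimises over `S` the `p`-adic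
valuation of `∏_{i<k} (s - a i)`.  `HasSimultaneousOrdering S`: one sequence is a `p`-ordering of
`S` for every nonzero prime ideal `p`.  `DenseInCoset S b I`: `S` is contained in `b + I` and
`p`-adically dense in it for every nonzero prime ideal `p`.
-/

open NumberField IsDedekindDomain Pool.Agent.Work.MP_b29d7f_nt.Ded

namespace Pool.Agent.Results.MP_b29d7f_nt.NumberFields

universe u

/-- (1) Let `[K : ℚ] ≥ 2` and let `S` be a subset of `K` which for all primes `v` outside a finite
set `E` is integral and `v`-adically dense in `𝓞 K`. No sequence in `S` is a `v`-ordering of `S` for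
all `v` outside `E`.  (2) The ring of `T`-integers, `T` finite, has a simultaneous ordering if and
only if `K = ℚ`.  (3) If `[K : ℚ] ≥ 2`, no dense subset of a coset `b + I` in such a ring has a
simultaneous ordering. -/
theorem result :
    (∀ (K : Type u) [Field K] [NumberField K], 2 ≤ Module.finrank ℚ K →
      ∀ E : Set (HeightOneSpectrum (𝓞 K)), E.Finite → ∀ S : Set K,
      (∀ v ∉ E, ∀ s ∈ S, v.valuation K s ≤ 1) →
      (∀ v ∉ E, ∀ (x : 𝓞 K) (n : ℕ), ∃ s ∈ S,
        v.valuation K (s - algebraMap (𝓞 K) K x) ≤ WithZero.exp (-(n : ℤ))) →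
      ¬ ∃ a : ℕ → K, (∀ k, a k ∈ S) ∧ ∀ v ∉ E, ∀ k, ∀ s ∈ S,
        v.valuation K (∏ i ∈ Finset.range k, (s - a i))
          ≤ v.valuation K (∏ i ∈ Finset.range k, (a k - a i))) ∧
    (∀ (K : Type u) [Field K] [NumberField K] (T : Set (HeightOneSpectrum (𝓞 K))), T.Finite →
      (HasSimultaneousOrdering (Set.univ : Set (T.integer K)) ↔ Module.finrank ℚ K = 1)) ∧
    (∀ (K : Type u) [Field K] [NumberField K], 2 ≤ Module.finrank ℚ K →
      ∀ T : Set (HeightOneSpectrum (𝓞 K)), T.Finite →
      ∀ (S : Set (T.integer K)) (b : T.integer K) (I : Ideal (T.integer K)), I ≠ ⊥ →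
        DenseInCoset S b I → ¬ HasSimultaneousOrdering S) :=
  Pool.NS.ALL.all

end Pool.Agent.Results.MP_b29d7f_nt.NumberFields
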